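import Mathlib
set_option autoImplicit false

/-!
The cubic fields generated by the roots of `X (X - 1) (X + n) - 1`.
-/

namespace Pool.Agent.K6.H95.DS

open Polynomial NumberField

/-- The polynomial `X (X - 1) (X + n) - 1`. -/
noncomputable def cub {R : Type*} [CommRing R] (n : R) : R[X] := X * (X - 1) * (X + C n) - 1

theorem cub_eq {R : Type*} [CommRing R] (n : R) :
    cub n = X ^ 3 + C (n - 1) * X ^ 2 - C n * X - C 1 := by
  unfold cub
  simp only [map_sub, map_one]
  ring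

theorem cub_monic {R : Type*} [CommRing R] [Nontrivial R] (n : R) : (cub n).Monic := by
  rw [cub_eq]
  monicity!

theorem cub_natDegree {R : Type*} [CommRing R] [Nontrivial R] (n : R) : (cub n).natDegree = 3 := by
  rw [cub_eq]
  compute_degree!

theorem cub_irr (n : ℤ) : Irreducible (cub (n : ℚ)) := by
  have hm := cub_monic (n : ℚ)
  rw [hm.irreducible_iff_roots_eq_zero_of_degree_le_three (by rw [cub_natDegree]; norm_num)
    (by rw [cub_natDegree])]
  rw [Multiset.eq_zero_iff_forall_notMem]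
  intro q hq
  rw [mem_roots hm.ne_zero, IsRoot.def] at hq
  unfold cub at hq
  simp only [eval_sub, eval_mul, eval_add, eval_X, eval_C, eval_one] at hq
  -- the root is an integer
  have hint : IsIntegral ℤ q := by
    refine ⟨cub n, cub_monic n, ?_⟩
    unfold cub
    simp only [eval₂_sub, eval₂_mul, eval₂_add, eval₂_X, eval₂_C, eval₂_one]
    rw [← hq]
    simp
  obtain ⟨m, hm1⟩ := (IsIntegrallyClosed.isIntegral_iff (R := ℤ) (K := ℚ)).1 hint
  have hm2 : (m : ℚ) = q := hm1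
  rw [← hm2] at hq
  have h1 : m * (m - 1) * (m + n) = 1 := by
    have : (m : ℚ) * (m - 1) * (m + n) = 1 := by linarith
    exact_mod_cast this
  have h2 : m ∣ 1 := ⟨(m - 1) * (m + n), by linear_combination -h1⟩
  have h3 : (m - 1) ∣ 1 := ⟨m * (m + n), by linear_combination -h1⟩
  rcases Int.isUnit_iff.1 (isUnit_of_dvd_one h2) with h | h
  · rcases Int.isUnit_iff.1 (isUnit_of_dvd_one h3) with h' | h' <;> omega
  · rcases Int.isUnit_iff.1 (isUnit_of_dvd_one h3) with h' | h' <;> omega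


section field

variable (n : ℤ) [hirr : Fact (Irreducible (cub (n : ℚ)))]

instance nf : NumberField (AdjoinRoot (cub (n : ℚ))) where
  to_charZero := charZero_of_injective_algebraMap
    (algebraMap ℚ (AdjoinRoot (cub (n : ℚ)))).injective
  to_finiteDimensional := (AdjoinRoot.powerBasis hirr.out.ne_zero).finite

theorem finrank_cub : Module.finrank ℚ (AdjoinRoot (cub (n : ℚ))) = 3 := by
  rw [(AdjoinRoot.powerBasis hirr.out.ne_zero).finrank, AdjoinRoot.powerBasis_dim, cub_natDegree]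

omit hirr in
theorem eval_cub {R : Type*} [CommRing R] [Algebra ℚ R] (r : R) :
    (cub (n : ℚ)).eval₂ (algebraMap ℚ R) r = r * (r - 1) * (r + n) - 1 := by
  unfold cub
  simp only [eval₂_sub, eval₂_mul, eval₂_add, eval₂_X, eval₂_C, eval₂_one]
  simp only [map_intCast]

/-- The root of the polynomial. -/
noncomputable abbrev mu : AdjoinRoot (cub (n : ℚ)) := AdjoinRoot.root (cub (n : ℚ))

theorem root_rel : mu n * (mu n - 1) * (mu n + n) = 1 := by
  have key : ∀ q : ℚ[X], q = cub (n : ℚ) →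
      q.eval₂ (AdjoinRoot.of (cub (n : ℚ))) (AdjoinRoot.root (cub (n : ℚ))) = 0 := by
    rintro _ rfl
    exact AdjoinRoot.eval₂_root _
  have h := key (X * (X - 1) * (X + C (n : ℚ)) - 1) rfl
  simp only [eval₂_sub, eval₂_mul, eval₂_add, eval₂_X, eval₂_C, eval₂_one] at h
  simp only [map_intCast] at h
  exact sub_eq_zero.1 h

theorem mu_ne_zero : mu n ≠ 0 := by
  intro h
  have h1 := root_rel n
  rw [h, zero_mul, zero_mul] at h1
  exact zero_ne_one h1

theorem mu_ne_one : mu n ≠ 1 := by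
  intro h
  have h1 := root_rel n
  rw [h, sub_self, mul_zero, zero_mul] at h1
  exact zero_ne_one h1

omit hirr in
theorem eval_cub' {R : Type*} [CommRing R] (f : ℤ →+* R) (r : R) :
    (cub n).eval₂ f r = r * (r - 1) * (r + n) - 1 := by
  unfold cub
  simp only [eval₂_sub, eval₂_mul, eval₂_add, eval₂_X, eval₂_C, eval₂_one]
  simp

theorem int_mu : IsIntegral ℤ (mu n) := by
  refine ⟨cub n, cub_monic n, ?_⟩
  rw [eval_cub', root_rel, sub_self]

theorem int_inv : IsIntegral ℤ (mu n)⁻¹ := by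
  have h : (mu n)⁻¹ = (mu n - 1) * (mu n + n) := by
    rw [inv_eq_iff_eq_inv]
    refine eq_inv_of_mul_eq_one_left ?_
    rw [← mul_assoc]
    exact root_rel n
  rw [h]
  exact ((int_mu n).sub isIntegral_one).mul ((int_mu n).add (isIntegral_algebraMap (x := n)))

theorem int_inv' : IsIntegral ℤ (1 - mu n)⁻¹ := by
  have h : (1 - mu n)⁻¹ = -(mu n) * (mu n + n) := by
    rw [inv_eq_iff_eq_inv]
    refine eq_inv_of_mul_eq_one_left ?_
    linear_combination root_rel n
  rw [h]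
  exact (int_mu n).neg.mul ((int_mu n).add (isIntegral_algebraMap (x := n)))

/-- the real embedding attached to a real root -/
noncomputable def tau {r : ℝ} (h : r * (r - 1) * (r + n) - 1 = 0) :
    AdjoinRoot (cub (n : ℚ)) →+* ℝ :=
  AdjoinRoot.lift (algebraMap ℚ ℝ) r (by rw [eval_cub]; exact h)

theorem tau_root {r : ℝ} (h : r * (r - 1) * (r + n) - 1 = 0) : tau n h (mu n) = r := by
  unfold tau mu
  rw [AdjoinRoot.lift_root]

/-- the complex embedding attached to a real root -/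
noncomputable def sig {r : ℝ} (h : r * (r - 1) * (r + n) - 1 = 0) :
    AdjoinRoot (cub (n : ℚ)) →+* ℂ := Complex.ofRealHom.comp (tau n h)

theorem sig_root {r : ℝ} (h : r * (r - 1) * (r + n) - 1 = 0) : sig n h (mu n) = (r : ℂ) := by
  show ((tau n h (mu n) : ℝ) : ℂ) = _
  rw [tau_root]

/-- A field with three real roots is totally real. -/
theorem totReal (R : Finset ℝ) (hR : R.card = 3) (h : ∀ r ∈ R, r * (r - 1) * (r + n) - 1 = 0) :
    IsTotallyReal (AdjoinRoot (cub (n : ℚ))) := by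
  refine ⟨fun v => ?_⟩
  rw [InfinitePlace.isReal_iff, ComplexEmbedding.isReal_iff]
  set φ := v.embedding with hφ
  -- the complex roots are real
  have hm : (cub (n : ℂ)).Monic := cub_monic _
  have hz : φ (AdjoinRoot.root (cub (n : ℚ))) ∈ (cub (n : ℂ)).roots.toFinset := by
    rw [Multiset.mem_toFinset, mem_roots hm.ne_zero, IsRoot.def]
    have h1 := congrArg φ (root_rel n)
    simp only [map_sub, map_mul, map_add, map_one, map_intCast] at h1
    unfold cub
    simp only [eval_sub, eval_mul, eval_add, eval_X, eval_C, eval_one]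
    exact sub_eq_zero.2 h1
  have hsub : R.image (fun r : ℝ => (r : ℂ)) ⊆ (cub (n : ℂ)).roots.toFinset := by
    intro z hz
    rw [Finset.mem_image] at hz
    obtain ⟨r, hr, rfl⟩ := hz
    rw [Multiset.mem_toFinset, mem_roots hm.ne_zero, IsRoot.def]
    have h1 := h r hr
    unfold cub
    simp only [eval_sub, eval_mul, eval_add, eval_X, eval_C, eval_one]
    have h2 := congrArg (fun x : ℝ => (x : ℂ)) h1
    push_cast at h2
    exact h2
  have hcard : (R.image (fun r : ℝ => (r : ℂ))).card = 3 := by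
    rw [Finset.card_image_of_injective _ Complex.ofReal_injective, hR]
  have hle : (cub (n : ℂ)).roots.toFinset.card ≤ (R.image (fun r : ℝ => (r : ℂ))).card := by
    rw [hcard]
    calc _ ≤ Multiset.card (cub (n : ℂ)).roots := Multiset.toFinset_card_le _
      _ ≤ (cub (n : ℂ)).natDegree := card_roots' _
      _ = 3 := cub_natDegree _
  have heq := Finset.eq_of_subset_of_card_le hsub hle
  rw [← heq, Finset.mem_image] at hz
  obtain ⟨r, -, hr⟩ := hz
  apply AdjoinRoot.ringHom_ext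
  · ext1 x
    simp
  · rw [ComplexEmbedding.conjugate_coe_eq, ← hr, Complex.conj_ofReal]

omit hirr in
/-- the three real roots -/
theorem exists_roots (hn : 4 ≤ n) : ∃ r0 r1 r2 : ℝ,
    (r0 * (r0 - 1) * (r0 + n) - 1 = 0 ∧ r1 * (r1 - 1) * (r1 + n) - 1 = 0 ∧
      r2 * (r2 - 1) * (r2 + n) - 1 = 0) ∧
    r0 < -(n : ℝ) + 1 ∧ (-(2 / (n : ℝ)) < r1 ∧ r1 < 0) ∧ 1 < r2 ∧ r2 < 1 + 1 / (n : ℝ) := by
  have hn4 : (4 : ℝ) ≤ n := by exact_mod_cast hn
  have hn0 : (0 : ℝ) < n := by linarith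
  have hcont : Continuous fun x : ℝ => x * (x - 1) * (x + n) - 1 := by fun_prop
  have hinv : (1 / (n : ℝ)) * n = 1 := by field_simp
  have hi1 : 0 < 1 / (n : ℝ) := by positivity
  have hi2 : 1 / (n : ℝ) ≤ 1 / 4 := one_div_le_one_div_of_le (by norm_num) hn4
  set δ : ℝ := 1 / (n : ℝ) with hδ
  have h2δ : 2 / (n : ℝ) = 2 * δ := by rw [hδ]; ring
  -- the values
  have v0 : -(n : ℝ) * (-(n : ℝ) - 1) * (-(n : ℝ) + n) - 1 < 0 := by
    have : -(n : ℝ) * (-(n : ℝ) - 1) * (-(n : ℝ) + n) - 1 = -1 := by ring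
    linarith
  have v1 : 0 < (-(n : ℝ) + 1) * ((-(n : ℝ) + 1) - 1) * ((-(n : ℝ) + 1) + n) - 1 := by
    have : (-(n : ℝ) + 1) * ((-(n : ℝ) + 1) - 1) * ((-(n : ℝ) + 1) + n) - 1 =
        (n - 1) * n - 1 := by ring
    nlinarith
  have v2 : 0 < -(2 * δ) * (-(2 * δ) - 1) * (-(2 * δ) + n) - 1 := by
    have e : -(2 * δ) * (-(2 * δ) - 1) * (-(2 * δ) + n) - 1 =
        2 * (δ * n) * (1 + 2 * δ) - 4 * δ ^ 2 * (1 + 2 * δ) - 1 := by ring
    rw [e, hinv]
    nlinarith
  have v3 : (0 : ℝ) * (0 - 1) * (0 + n) - 1 < 0 := by norm_num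
  have v4 : (1 : ℝ) * (1 - 1) * (1 + n) - 1 < 0 := by norm_num
  have v5 : 0 < (1 + δ) * ((1 + δ) - 1) * ((1 + δ) + n) - 1 := by
    have e : (1 + δ) * ((1 + δ) - 1) * ((1 + δ) + n) - 1 =
        (1 + δ) ^ 2 * δ + (1 + δ) * (δ * n) - 1 := by ring
    rw [e, hinv]
    nlinarith [mul_pos hi1 hi1]
  obtain ⟨r0, ⟨a0, b0⟩, f0⟩ := intermediate_value_Ioo (show -(n : ℝ) ≤ -(n : ℝ) + 1 by linarith)
    hcont.continuousOn ⟨v0, v1⟩
  obtain ⟨r1, ⟨a1, b1⟩, f1⟩ := intermediate_value_Ioo' (show -(2 * δ) ≤ 0 by linarith)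
    hcont.continuousOn ⟨v3, v2⟩
  obtain ⟨r2, ⟨a2, b2⟩, f2⟩ := intermediate_value_Ioo (show (1 : ℝ) ≤ 1 + δ by linarith)
    hcont.continuousOn ⟨v4, v5⟩
  refine ⟨r0, r1, r2, ⟨f0, f1, f2⟩, b0, ⟨?_, b1⟩, a2, b2⟩
  rw [h2δ]
  exact a1

end field

end Pool.Agent.K6.H95.DS
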