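import Pool.Agent.K6.H95.SP.Final
set_option autoImplicit false

/-!
Tori near the degenerate fibres, with constants which do not depend on the number field.
-/

namespace Pool.Agent.K6.H95.DS

open Pool.Agent.TH826.MK (symb Torus Good Per pairing good_const)
open Pool.Agent.K6.H95.SP

universe u

variable {s : ℕ}

theorem linC (Q R : Matrix (Fin (s + 2)) (Fin (s + 2)) ℂ)
    (c : Fin (s + 2) → ℂ) (j : Fin (s + 2)) :
    ∑ i, Q j i * ∑ k, R i k * c k = ∑ k, (Q * R) j k * c k := by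
  have h : ∀ i, Q j i * ∑ k, R i k * c k = ∑ k, Q j i * (R i k * c k) :=
    fun i => Finset.mul_sum _ _ _
  rw [Finset.sum_congr rfl fun i _ => h i, Finset.sum_comm]
  refine Finset.sum_congr rfl fun k _ => ?_
  rw [Matrix.mul_apply, Finset.sum_mul]
  exact Finset.sum_congr rfl fun i _ => by ring

theorem lin_oneC (g : ℂ) (c : Fin (s + 2) → ℂ) (j : Fin (s + 2)) :
    ∑ k, (g • (1 : Matrix (Fin (s + 2)) (Fin (s + 2)) ℂ)) j k * c k = g * c j := by
  rw [Finset.sum_eq_single j]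
  · rw [Matrix.smul_apply, Matrix.one_apply_eq, smul_eq_mul, mul_one]
  · intro k _ hk
    rw [Matrix.smul_apply, Matrix.one_apply_ne (Ne.symm hk), smul_zero, zero_mul]
  · intro h
    exact absurd (Finset.mem_univ j) h

/-- The tori near a degenerate fibre: `c` are the coordinates of the degenerating simplex,
`a = R c`, and `Q_k` are the matrices of all simplices. -/
theorem cusp_torusC {P : Matrix (Fin (s + 2)) (Fin (s + 2)) ℂ} {top : Fin (s + 2) → Fin (s + 2)}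
    (htop : ∀ j, P j (top j) ≠ 0 ∧ ∀ i, P j i ≠ 0 → i ≤ top j)
    (hpos : ∑ i : Fin (s + 2), (i : ℤ) < ∑ j, (top j : ℤ)) :
    ∃ D : ℝ, D ≠ 0 ∧ ∀ (κ : Type) [Fintype κ] [DecidableEq κ]
      (R : Matrix (Fin (s + 2)) (Fin (s + 2)) ℂ)
      (Q : κ → Matrix (Fin (s + 2)) (Fin (s + 2)) ℂ) (k0 kA : κ) (g : ℂ), g ≠ 0 → Q kA = 1 →
      Q k0 * R = g • 1 → (∀ k, k ≠ k0 → ∀ j, ∃ i, i ≠ 0 ∧ (Q k * R) j i ≠ 0) →
      ∀ ε : ℝ, 0 < ε → ∃ C : ℝ, 1 < C ∧ ∀ (K : Type u) [Field K] (σ : K →+* ℂ)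
        (M : Matrix (Fin (s + 2)) (Fin (s + 2)) K)
        (QK : κ → Matrix (Fin (s + 2)) (Fin (s + 2)) K), (∀ k j i, σ (QK k j i) = Q k j i) →
        ∀ (lam : K) (t : ℂ), C ≤ ‖t‖ →
        (∀ c : Fin (s + 2) → ℂ, ∏ j, ∑ i, P j i * c i = t * ∏ i, c i →
          σ lam * ∏ j, ∑ i, σ (M j i) * ∑ k, R i k * c k = ∏ i, ∑ k, R i k * c k) →
        ∀ (u : κ → Fin (s + 2) → (PRing lam M)ˣ),
        (∀ k j, (u k j : PRing lam M) = fq lam M (QK k) j) →
        ∃ Γ : Torus (PRing lam M) s, (∀ θ x, Γ.e θ (cst lam M x) = σ x) ∧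
          ∀ k, |Γ.reg (symb (ent (u k))) / Real.log ‖t‖ - (if k = k0 then D else 0)| ≤ ε := by
  obtain ⟨D, hD, hmain⟩ := exists_cusp htop hpos
  refine ⟨D, hD, fun κ _ _ R Q k0 kA g hg hkA hk0 hk ε hε => ?_⟩
  obtain ⟨C, hC1, hC⟩ := hmain {k : κ // k ≠ k0} (fun a j i => (Q a.1 * R) j i)
    (fun a j => hk a.1 a.2 j) ε hε
  refine ⟨C, hC1, fun K _ σ M QK hQK lam t ht hrel u hu => ?_⟩
  obtain ⟨z, hz1, hz2, hz3, hz4, hz5⟩ := hC t ht
  have hcg := good_cv hz1
  -- the homogeneous coordinates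
  set a : (Fin s → ℝ) → Fin (s + 2) → ℂ := fun θ i => ∑ k, R i k * cv z k θ with ha
  have hforms : ∀ k j θ, ∑ i, σ (QK k j i) * a θ i = ∑ i, (Q k * R) j i * cv z i θ := by
    intro k j θ
    rw [Finset.sum_congr rfl fun i _ => by rw [hQK]]
    exact linC (Q k) R (fun i => cv z i θ) j
  have hfne : ∀ k j θ, ∑ i, (Q k * R) j i * cv z i θ ≠ 0 := by
    intro k j θ
    by_cases h : k = k0
    · rw [h, hk0, lin_oneC g (fun i => cv z i θ)]
      exact mul_ne_zero hg ((hcg j).ne_zero θ)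
    · exact ((hz5 ⟨k, h⟩).1 j).ne_zero θ
  have hane : ∀ θ i, a θ i ≠ 0 := by
    intro θ i
    have h1 := hfne kA i θ
    rw [hkA, one_mul] at h1
    exact h1
  have hac : ContDiff ℝ 2 a := by
    refine contDiff_pi.2 fun i => ?_
    exact ContDiff.sum fun k _ => contDiff_const.mul (hcg k).smooth
  have hap : ∀ θ i, a (θ + Pi.single i 1) = a θ := by
    intro θ i
    funext l
    simp only [ha]
    refine Finset.sum_congr rfl fun k _ => ?_
    rw [per_cv hz2 k θ i]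
  have hpt : ∀ θ, GoodPt σ lam M (a θ) := fun θ =>
    { ne := hane θ
      eq := by
        refine hrel (fun i => cv z i θ) ?_
        have h1 := hz3 θ
        have h2 : ∏ i, cv z i θ = ∏ i, z i θ := by
          rw [Fin.prod_univ_succ, cv_zero, one_mul]
          rfl
        rw [h2]
        exact h1 }
  refine ⟨mkT a hac hap hpt, fun θ x => evX_cst (hpt θ) x, fun k => ?_⟩
  rw [Torus.reg_symb]
  unfold Torus.pair
  have e1 : (fun l => (mkT a hac hap hpt).fn (ent (u k) l : PRing lam M)) =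
      fun (l : Fin (s + 1)) θ => (∑ i, (Q k * R) l.succ i * cv z i θ) /
        (∑ i, (Q k * R) 0 i * cv z i θ) := by
    funext l
    rw [mkT_ent a hac hap hpt (u k) (QK k) (hu k) l]
    funext θ
    rw [hforms, hforms]
  rw [e1]
  by_cases h : k = k0
  · rw [if_pos h]
    have e2 : (fun (l : Fin (s + 1)) (θ : Fin s → ℝ) =>
        (∑ i, (Q k * R) l.succ i * cv z i θ) / (∑ i, (Q k * R) 0 i * cv z i θ)) = z := by
      funext l θ
      rw [h, hk0, lin_oneC g (fun i => cv z i θ), lin_oneC g (fun i => cv z i θ)]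
      simp only [cv_zero, cv_succ]
      rw [mul_one, mul_div_assoc, mul_comm, div_mul_cancel₀ _ hg]
    rw [e2]
    exact hz4
  · rw [if_neg h, sub_zero]
    exact (hz5 ⟨k, h⟩).2

end Pool.Agent.K6.H95.DS
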