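import Pool.Agent.K6.H95.DS.CuspC
set_option autoImplicit false

/-!
The desmic pencil: three tetrahedra in the pencil `(a_0 + a_1 + a_2 + a_3) (a_0 + a_1 - a_2 - a_3)
(a_0 - a_1 + a_2 - a_3) (a_0 - a_1 - a_2 + a_3) = t a_0 a_1 a_2 a_3`.
-/

namespace Pool.Agent.K6.H95.DS

open Pool.Agent.TH826.MK (KQ symb Unramified Torus)
open Pool.Agent.K6.H95.SP

universe u

section mat

/-- The Hadamard matrix of order `4`. -/
def HM (K : Type*) [CommRing K] : Matrix (Fin (2 + 2)) (Fin (2 + 2)) K :=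
  !![1, 1, 1, 1; 1, 1, -1, -1; 1, -1, 1, -1; 1, -1, -1, 1]

/-- The matrix of the third tetrahedron. -/
def CM (K : Type*) [CommRing K] : Matrix (Fin (2 + 2)) (Fin (2 + 2)) K :=
  !![-1, 1, 1, 1; -1, 1, -1, -1; -1, -1, 1, -1; -1, -1, -1, 1]

/-- Four times the inverse of `CM`. -/
def RM (K : Type*) [CommRing K] : Matrix (Fin (2 + 2)) (Fin (2 + 2)) K :=
  !![-1, -1, -1, -1; 1, 1, -1, -1; 1, -1, 1, -1; 1, -1, -1, 1]

variable (K : Type*) [Field K]

theorem HM_sq : HM K * HM K = (4 : K) • 1 := by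
  ext i j
  fin_cases i <;> fin_cases j <;> simp [HM, Matrix.mul_apply, Fin.sum_univ_four] <;> norm_num

theorem CM_RM : CM K * RM K = (4 : K) • 1 := by
  ext i j
  fin_cases i <;> fin_cases j <;> simp [CM, RM, Matrix.mul_apply, Fin.sum_univ_four] <;> norm_num

theorem HM_ne (j i : Fin (2 + 2)) : HM K j i = 1 ∨ HM K j i = -1 := by
  fin_cases j <;> fin_cases i <;> simp [HM]

theorem CM_ne (j i : Fin (2 + 2)) : CM K j i = 1 ∨ CM K j i = -1 := by
  fin_cases j <;> fin_cases i <;> simp [CM]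

theorem RM_ne (j i : Fin (2 + 2)) : RM K j i = 1 ∨ RM K j i = -1 := by
  fin_cases j <;> fin_cases i <;> simp [RM]

variable {K} in
theorem ne_of_sign {x : K} (h : x = 1 ∨ x = -1) : x ≠ 0 := by
  rcases h with h | h
  · rw [h]; exact one_ne_zero
  · rw [h]; exact neg_ne_zero.2 one_ne_zero

theorem hall_HM : Hall (HM K) := by
  intro S T hS hS' h
  rcases T.eq_empty_or_nonempty with hT | ⟨j, hj⟩
  · rw [hT, Finset.card_empty]
    exact Finset.card_pos.2 hS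
  · exact absurd (Finset.eq_univ_iff_forall.2 fun i => h j hj i (ne_of_sign (HM_ne K j i))) hS'

theorem tors_HM : Tors (HM K) := by
  intro j i
  refine Or.inr ⟨2, two_ne_zero, ?_⟩
  rcases HM_ne K j i with h | h
  · rw [h]; norm_num
  · rw [h]; norm_num

/-- The products of the matrices. -/
theorem HM_RM_ne [CharZero K] (j i : Fin (2 + 2)) : (HM K * RM K) j i ≠ 0 := by
  fin_cases j <;> fin_cases i <;>
    simp [HM, RM, Matrix.mul_apply, Fin.sum_univ_four]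

theorem CM_HM_ne [CharZero K] (j i : Fin (2 + 2)) : (CM K * HM K) j i ≠ 0 := by
  fin_cases j <;> fin_cases i <;>
    simp [HM, CM, Matrix.mul_apply, Fin.sum_univ_four]

variable {K}

theorem map_HM {L : Type*} [Field L] (σ : K →+* L) (j i : Fin (2 + 2)) :
    σ (HM K j i) = HM L j i := by
  fin_cases j <;> fin_cases i <;> simp [HM]

theorem map_CM {L : Type*} [Field L] (σ : K →+* L) (j i : Fin (2 + 2)) :
    σ (CM K j i) = CM L j i := by
  fin_cases j <;> fin_cases i <;> simp [CM]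

end mat

section forms

variable {K A : Type*} [Field K] [CommRing A] (φ : K →+* A) (x : Fin (2 + 2) → A)

theorem prodH : ∏ j, ∑ i, φ (HM K j i) * x i = (x 0 + x 1 + x 2 + x 3) *
    (x 0 + x 1 - x 2 - x 3) * (x 0 - x 1 + x 2 - x 3) * (x 0 - x 1 - x 2 + x 3) := by
  show ∏ j : Fin 4, ∑ i : Fin 4, φ (HM K j i) * x i = _
  rw [Fin.prod_univ_four]
  simp only [Fin.sum_univ_four]
  simp [HM]
  ring

theorem prodC : ∏ j, ∑ i, φ (CM K j i) * x i =
    ∏ j, ∑ i, φ (HM K j i) * x i - 16 * ∏ i, x i := by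
  rw [prodH]
  show ∏ j : Fin 4, ∑ i : Fin 4, φ (CM K j i) * x i = _ - 16 * ∏ i : Fin 4, x i
  rw [Fin.prod_univ_four, Fin.prod_univ_four]
  simp only [Fin.sum_univ_four]
  simp [CM]
  ring

theorem prodHC : ∏ j, ∑ i, φ (HM K j i) * ∑ k, φ (CM K i k) * x k = -256 * ∏ i, x i := by
  show ∏ j : Fin 4, ∑ i : Fin 4, φ (HM K j i) * ∑ k : Fin 4, φ (CM K i k) * x k =
    -256 * ∏ i : Fin 4, x i
  rw [Fin.prod_univ_four, Fin.prod_univ_four]
  simp only [Fin.sum_univ_four]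
  simp [HM, CM]
  ring

theorem prodHH : ∏ j, ∑ i, φ (HM K j i) * ∑ k, φ (HM K i k) * x k = 256 * ∏ i, x i := by
  show ∏ j : Fin 4, ∑ i : Fin 4, φ (HM K j i) * ∑ k : Fin 4, φ (HM K i k) * x k =
    256 * ∏ i : Fin 4, x i
  rw [Fin.prod_univ_four, Fin.prod_univ_four]
  simp only [Fin.sum_univ_four]
  simp [HM]
  ring

theorem prodR : ∏ j, ∑ i, φ (RM K j i) * x i = -∏ j, ∑ i, φ (HM K j i) * x i := by
  rw [prodH]
  show ∏ j : Fin 4, ∑ i : Fin 4, φ (RM K j i) * x i = _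
  rw [Fin.prod_univ_four]
  simp only [Fin.sum_univ_four]
  simp [RM]
  ring

theorem prodHR : ∏ j, ∑ i, φ (HM K j i) * ∑ k, φ (RM K i k) * x k =
    16 * (16 * ∏ i, x i - ∏ j, ∑ i, φ (HM K j i) * x i) := by
  rw [prodH φ x]
  show ∏ j : Fin 4, ∑ i : Fin 4, φ (HM K j i) * ∑ k : Fin 4, φ (RM K i k) * x k =
    16 * (16 * ∏ i : Fin 4, x i - _)
  rw [Fin.prod_univ_four, Fin.prod_univ_four]
  simp only [Fin.sum_univ_four]
  simp [HM, RM]
  ring

end forms

section ring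

variable {K : Type*} [Field K] {lam : K}

theorem prod_fq (Q : Matrix (Fin (2 + 2)) (Fin (2 + 2)) K) : ∏ j, fq lam (HM K) Q j =
    ∏ j, ∑ i, cst lam (HM K) (Q j i) * fa lam (HM K) i :=
  Finset.prod_congr rfl fun j _ => fq_eq lam (HM K) Q j

theorem fc_prod : ∏ j, fq lam (HM K) (CM K) j =
    cst lam (HM K) (1 - 16 * lam) * ∏ j, fq lam (HM K) (HM K) j := by
  have h1 := prodC (cst lam (HM K)) (fun i => fa lam (HM K) i)
  have h2 := prod_eq lam (HM K)
  rw [prod_fq (CM K), h1, ← prod_fq (HM K), ← h2, map_sub, map_one, map_mul, map_ofNat]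
  ring

theorem isUnit_fc (h : 1 - 16 * lam ≠ 0) (j : Fin (2 + 2)) :
    IsUnit (fq lam (HM K) (CM K) j) := by
  refine isUnit_of_dvd_unit (Finset.dvd_prod_of_mem (fun j => fq lam (HM K) (CM K) j)
    (Finset.mem_univ j)) ?_
  rw [fc_prod]
  refine IsUnit.mul ((IsUnit.mk0 _ h).map (cst lam (HM K))) ?_
  exact IsUnit.prod_iff.2 fun j _ => isUnit_fb lam (HM K) j

/-- The unit `c_j / a_0`, `c` the coordinates of the third tetrahedron. -/
noncomputable def uc (h : 1 - 16 * lam ≠ 0) (j : Fin (2 + 2)) : (PRing lam (HM K))ˣ :=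
  (isUnit_fc h j).unit

/-- The matrices of the three tetrahedra. -/
def Q3 (K : Type*) [Field K] : Fin 3 → Matrix (Fin (2 + 2)) (Fin (2 + 2)) K := ![1, HM K, CM K]

/-- The units of the three tetrahedra. -/
noncomputable def u3 (h : 1 - 16 * lam ≠ 0) : Fin 3 → Fin (2 + 2) → (PRing lam (HM K))ˣ :=
  ![ua lam (HM K), ub lam (HM K), uc h]

theorem coe_u3 (h : 1 - 16 * lam ≠ 0) (k : Fin 3) (j : Fin (2 + 2)) :
    (u3 h k j : PRing lam (HM K)) = fq lam (HM K) (Q3 K k) j := by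
  fin_cases k
  · have h := fq_smul_one (lam := lam) (M := HM K) 1 j
    rw [one_smul, map_one, one_mul] at h
    exact h.symm
  · rfl
  · rfl

variable {L : Type*} [Field L] (f : PRing lam (HM K) →+* L)

theorem unram_c (h : 1 - 16 * lam ≠ 0) {t : K} (ht : IsIntegral ℤ t)
    (hrel : 256 * lam = t * (16 * lam - 1)) :
    KQ.map 3 f (symb (ent (uc h))) ∈ Unramified L 3 := by
  refine symb_ent_mem f (hall_HM K) (tors_HM K) (uc h) ht ?_
  have h1 : ∏ j, ∑ i, cst lam (HM K) (HM K j i) * (uc h i : PRing lam (HM K)) =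
      -256 * ∏ i, fa lam (HM K) i := by
    rw [← prodHC (cst lam (HM K)) (fun i => fa lam (HM K) i)]
    refine Finset.prod_congr rfl fun j _ => Finset.sum_congr rfl fun i _ => ?_
    have h2 : (uc h i : PRing lam (HM K)) = fq lam (HM K) (CM K) i := rfl
    rw [h2, fq_eq]
  have h3 : ∏ i, (uc h i : PRing lam (HM K)) = ∏ i, fq lam (HM K) (CM K) i := rfl
  rw [h1, h3, fc_prod, ← prod_eq, ← mul_assoc, ← mul_assoc, ← map_mul]
  have h4 : t * (1 - 16 * lam) = -256 * lam := by linear_combination hrel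
  rw [h4, map_mul, map_neg, map_ofNat]

theorem unram_three (h : 1 - 16 * lam ≠ 0) (hlam : lam ≠ 0) (h1 : IsIntegral ℤ lam⁻¹)
    (h2 : IsIntegral ℤ (256 * lam)) {t : K} (ht : IsIntegral ℤ t)
    (hrel : 256 * lam = t * (16 * lam - 1)) (k : Fin 3) :
    KQ.map 3 f (symb (ent (u3 h k))) ∈ Unramified L 3 := by
  fin_cases k
  · exact unram_a f (hall_HM K) (tors_HM K) hlam h1
  · exact unram_b f (hall_HM K) (tors_HM K) (HM_sq K) (by
      have : (4 : K) ^ (2 + 2) = 256 := by norm_num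
      rw [this]
      exact h2)
  · exact unram_c f h ht hrel

end ring

section tori

theorem exists_three : ∃ C : ℝ, 1 ≤ C ∧ ∀ (K : Type u) [Field K] (σ : Fin 3 → K →+* ℂ) (lam : K)
    (h : 1 - 16 * lam ≠ 0), lam ≠ 0 → C ≤ ‖σ 0 lam⁻¹‖ → C ≤ ‖σ 1 (256 * lam)‖ →
    C ≤ ‖σ 2 (256 * lam / (16 * lam - 1))‖ →
      ∃ Γ : Fin 3 → Torus (PRing lam (HM K)) 2,
        (∀ k θ x, (Γ k).e θ (cst lam (HM K) x) = σ k x) ∧
        (Matrix.of fun k l => (Γ k).reg (symb (ent (u3 h l)))).det ≠ 0 := by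
  classical
  obtain ⟨top, htop, hpos⟩ := hall_top (hall_HM ℂ) (RingHom.id ℂ)
  have htop' : ∀ j, HM ℂ j (top j) ≠ 0 ∧ ∀ i, HM ℂ j i ≠ 0 → i ≤ top j := htop
  obtain ⟨D, hD, hmain⟩ := cusp_torusC.{u} htop' hpos
  obtain ⟨ε, hε, hdet⟩ := det_ne (fun _ : Fin 3 => D) (fun _ => hD)
  have hne : ∀ (k : Fin 3) (j : Fin (2 + 2)), Q3 ℂ k j 1 ≠ 0 ∨ k = 0 := by
    intro k j
    fin_cases k
    · right; rfl
    · left; exact ne_of_sign (HM_ne ℂ j 1)
    · left; exact ne_of_sign (CM_ne ℂ j 1)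
  obtain ⟨C0, hC0, H0⟩ := hmain (Fin 3) 1 (Q3 ℂ) 0 0 1 one_ne_zero rfl
    (by rw [one_smul]; exact one_mul _) (fun k hk j => by
      refine ⟨1, one_ne_zero, ?_⟩
      rw [mul_one]
      exact (hne k j).resolve_right hk) ε hε
  obtain ⟨C1, hC1, H1⟩ := hmain (Fin 3) (HM ℂ) (Q3 ℂ) 1 0 4 (by norm_num) rfl (HM_sq ℂ)
    (fun k hk j => by
      refine ⟨1, one_ne_zero, ?_⟩
      fin_cases k
      · show ((1 : Matrix (Fin (2 + 2)) (Fin (2 + 2)) ℂ) * HM ℂ) j 1 ≠ 0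
        rw [one_mul]
        exact ne_of_sign (HM_ne ℂ j 1)
      · exact absurd rfl hk
      · exact CM_HM_ne ℂ j 1) ε hε
  obtain ⟨C2, hC2, H2⟩ := hmain (Fin 3) (RM ℂ) (Q3 ℂ) 2 0 4 (by norm_num) rfl (CM_RM ℂ)
    (fun k hk j => by
      refine ⟨1, one_ne_zero, ?_⟩
      fin_cases k
      · show ((1 : Matrix (Fin (2 + 2)) (Fin (2 + 2)) ℂ) * RM ℂ) j 1 ≠ 0
        rw [one_mul]
        exact ne_of_sign (RM_ne ℂ j 1)
      · exact HM_RM_ne ℂ j 1
      · exact absurd rfl hk) ε hε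
  refine ⟨max C0 (max C1 C2), hC0.le.trans (le_max_left _ _),
    fun K _ σ lam h hlam h0 h1 h2 => ?_⟩
  have g0 : C0 ≤ ‖σ 0 lam⁻¹‖ := (le_max_left _ _).trans h0
  have g1 : C1 ≤ ‖σ 1 (256 * lam)‖ := ((le_max_left _ _).trans (le_max_right _ _)).trans h1
  have g2 : C2 ≤ ‖σ 2 (256 * lam / (16 * lam - 1))‖ :=
    ((le_max_right _ _).trans (le_max_right _ _)).trans h2
  have hQ : ∀ (τ : K →+* ℂ) (k : Fin 3) (j i : Fin (2 + 2)), τ (Q3 K k j i) = Q3 ℂ k j i := by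
    intro τ k j i
    fin_cases k
    · show τ ((1 : Matrix (Fin (2 + 2)) (Fin (2 + 2)) K) j i) = (1 : Matrix _ _ ℂ) j i
      rw [Matrix.one_apply, Matrix.one_apply, apply_ite τ, map_one, map_zero]
    · exact map_HM τ j i
    · exact map_CM τ j i
  have hHc : ∀ (τ : K →+* ℂ) (y : Fin (2 + 2) → ℂ), ∏ j, ∑ i, τ (HM K j i) * y i =
      ∏ j, ∑ i, HM ℂ j i * y i := by
    intro τ y
    simp only [map_HM]
  obtain ⟨Γ0, a0, b0⟩ := H0 K (σ 0) (HM K) (Q3 K) (hQ _) lam (σ 0 lam⁻¹) g0 (fun c hc => by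
    have e : ∀ i, ∑ k, (1 : Matrix (Fin (2 + 2)) (Fin (2 + 2)) ℂ) i k * c k = c i := by
      intro i
      have h4 := lin_oneC (s := 2) 1 c i
      rw [one_smul, one_mul] at h4
      exact h4
    simp only [e]
    rw [hHc, hc, ← mul_assoc, ← map_mul, mul_inv_cancel₀ hlam, map_one, one_mul])
    (u3 h) (coe_u3 h)
  obtain ⟨Γ1, a1, b1⟩ := H1 K (σ 1) (HM K) (Q3 K) (hQ _) lam (σ 1 (256 * lam)) g1 (fun c hc => by
    have e := prodHH (RingHom.id ℂ) c
    simp only [RingHom.id_apply] at e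
    rw [hHc, e, hc, map_mul, map_ofNat]
    ring) (u3 h) (coe_u3 h)
  obtain ⟨Γ2, a2, b2⟩ := H2 K (σ 2) (HM K) (Q3 K) (hQ _) lam
    (σ 2 (256 * lam / (16 * lam - 1))) g2 (fun c hc => by
    have e := prodHR (RingHom.id ℂ) c
    have e' := prodR (RingHom.id ℂ) c
    simp only [RingHom.id_apply] at e e'
    have h3 : 16 * lam - 1 ≠ 0 := fun h4 => h (by linear_combination -h4)
    have h5 : σ 2 (256 * lam / (16 * lam - 1)) * (16 * σ 2 lam - 1) = 256 * σ 2 lam := by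
      have h6 : 256 * lam / (16 * lam - 1) * (16 * lam - 1) = 256 * lam := div_mul_cancel₀ _ h3
      have h7 := congrArg (σ 2) h6
      simp only [map_mul, map_sub, map_one, map_ofNat] at h7
      exact h7
    rw [hHc, e, e', hc]
    linear_combination (-(∏ i, c i)) * h5) (u3 h) (coe_u3 h)
  refine ⟨![Γ0, Γ1, Γ2], fun k => ?_, ?_⟩
  · fin_cases k
    · exact a0
    · exact a1
    · exact a2
  refine hdet _ ![Real.log ‖σ 0 lam⁻¹‖, Real.log ‖σ 1 (256 * lam)‖,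
    Real.log ‖σ 2 (256 * lam / (16 * lam - 1))‖] (fun k => ?_) fun k l => ?_
  · fin_cases k
    · exact (Real.log_pos (lt_of_lt_of_le hC0 g0)).ne'
    · exact (Real.log_pos (lt_of_lt_of_le hC1 g1)).ne'
    · exact (Real.log_pos (lt_of_lt_of_le hC2 g2)).ne'
  · fin_cases k
    · exact b0 l
    · exact b1 l
    · exact b2 l

end tori

end Pool.Agent.K6.H95.DS
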