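import Mathlib
set_option autoImplicit false

/-!
The surfaces of the desmic pencil are smooth outside of the edges of the first tetrahedron.
-/

namespace Pool.Agent.K6.H95.DS

open MvPolynomial

/-- The quartic form `(X_0 + X_1 + X_2 + X_3) (X_0 + X_1 - X_2 - X_3) (X_0 - X_1 + X_2 - X_3)
(X_0 - X_1 - X_2 + X_3) - 16 μ X_0 X_1 X_2 X_3`. -/
noncomputable def deqn {K : Type*} [Field K] (mu : K) : MvPolynomial (Fin 4) K :=
  (X 0 + X 1 + X 2 + X 3) * (X 0 + X 1 - X 2 - X 3) * (X 0 - X 1 + X 2 - X 3) *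
    (X 0 - X 1 - X 2 + X 3) - C (16 * mu) * (X 0 * X 1 * X 2 * X 3)

/-- the algebra of the critical points -/
theorem crit_sq {u0 u1 u2 u3 E q : ℂ} (hq : q ^ 2 = u0 * u1 * u2 * u3)
    (h0 : 8 * u0 ^ 2 - 4 * (u0 + u1 + u2 + u3) * u0 = E)
    (h1 : 8 * u1 ^ 2 - 4 * (u0 + u1 + u2 + u3) * u1 = E)
    (h2 : 8 * u2 ^ 2 - 4 * (u0 + u1 + u2 + u3) * u2 = E)
    (h3 : 8 * u3 ^ 2 - 4 * (u0 + u1 + u2 + u3) * u3 = E) : E ^ 2 = 64 * q ^ 2 := by
  have key : ∀ {a b c d : ℂ}, 8 * a ^ 2 - 4 * (a + b + c + d) * a = E →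
      8 * b ^ 2 - 4 * (a + b + c + d) * b = E → 8 * c ^ 2 - 4 * (a + b + c + d) * c = E →
      8 * d ^ 2 - 4 * (a + b + c + d) * d = E → a ≠ b → E ^ 2 = 64 * (a * b * c * d) := by
    intro a b c d ha hb hc hd hab
    have e1 : (a - b) * (a + b - c - d) = 0 := by linear_combination (ha - hb) / 4
    have e2 : a + b = c + d := by
      rcases mul_eq_zero.1 e1 with h | h
      · exact absurd (sub_eq_zero.1 h) hab
      · linear_combination h
    have e3 : (c - a) * (c + a - b - d) = 0 := by linear_combination (hc - ha) / 4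
    rcases mul_eq_zero.1 e3 with h | h
    · have hc' : c = a := sub_eq_zero.1 h
      have hd' : d = b := by linear_combination -e2 - hc'
      rw [hc', hd'] at ha ⊢
      have e4 : E = -8 * (a * b) := by linear_combination -ha
      rw [e4]
      ring
    · have hc' : c = b := by linear_combination (h - e2) / 2
      have hd' : d = a := by linear_combination -e2 - hc'
      rw [hc', hd'] at ha ⊢
      have e4 : E = -8 * (a * b) := by linear_combination -ha
      rw [e4]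
      ring
  rw [hq]
  by_cases h01 : u0 = u1
  · by_cases h02 : u0 = u2
    · by_cases h03 : u0 = u3
      · rw [← h01, ← h02, ← h03] at h0 ⊢
        have e4 : E = -8 * u0 ^ 2 := by linear_combination -h0
        rw [e4]
        ring
      · have := key (a := u0) (b := u3) (c := u1) (d := u2) (by rw [← h0]; ring)
          (by rw [← h3]; ring) (by rw [← h1]; ring) (by rw [← h2]; ring) h03
        rw [this]; ring
    · have := key (a := u0) (b := u2) (c := u1) (d := u3) (by rw [← h0]; ring)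
        (by rw [← h2]; ring) (by rw [← h1]; ring) (by rw [← h3]; ring) h02
      rw [this]; ring
  · have := key h0 h1 h2 h3 h01
    rw [this]

theorem eval_pderiv {K : Type*} [Field K] (σ : K →+* ℂ) (mu : K) (x : Fin 4 → ℂ) :
    (eval₂ σ x (pderiv 0 (deqn mu)) = 4 * x 0 ^ 3 - 4 * x 0 * (x 1 ^ 2 + x 2 ^ 2 + x 3 ^ 2) +
      (8 - 16 * σ mu) * (x 1 * x 2 * x 3)) ∧
    (eval₂ σ x (pderiv 1 (deqn mu)) = 4 * x 1 ^ 3 - 4 * x 1 * (x 0 ^ 2 + x 2 ^ 2 + x 3 ^ 2) +
      (8 - 16 * σ mu) * (x 0 * x 2 * x 3)) ∧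
    (eval₂ σ x (pderiv 2 (deqn mu)) = 4 * x 2 ^ 3 - 4 * x 2 * (x 0 ^ 2 + x 1 ^ 2 + x 3 ^ 2) +
      (8 - 16 * σ mu) * (x 0 * x 1 * x 3)) ∧
    (eval₂ σ x (pderiv 3 (deqn mu)) = 4 * x 3 ^ 3 - 4 * x 3 * (x 0 ^ 2 + x 1 ^ 2 + x 2 ^ 2) +
      (8 - 16 * σ mu) * (x 0 * x 1 * x 2)) := by
  have e : ∀ i j : Fin 4, (Pi.single i (1 : MvPolynomial (Fin 4) K) : Fin 4 → MvPolynomial (Fin 4) K)
      j = if j = i then 1 else 0 := fun i j => Pi.single_apply _ _ _
  have hs : (16 : ℂ) * σ mu = σ (16 * mu) := by rw [map_mul, map_ofNat]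
  unfold deqn
  rw [hs]
  generalize 16 * mu = c
  refine ⟨?_, ?_, ?_, ?_⟩ <;>
  · simp only [map_sub, map_add, Derivation.leibniz, pderiv_X, pderiv_C, smul_eq_mul,
      eval₂_sub, eval₂_add, eval₂_mul, eval₂_X, eval₂_C, e,
      mul_zero, Fin.isValue, Fin.reduceEq, if_true, if_false, eval₂_one, eval₂_zero]
    ring

theorem smooth_desmic {K : Type*} [Field K] (σ : K →+* ℂ) {mu : K} (h0 : mu ≠ 0) (h1 : mu ≠ 1)
    (x : Fin 4 → ℂ) (hx : ∀ i, x i ≠ 0) :
    ∃ k, eval₂ σ x (pderiv k (deqn mu)) ≠ 0 := by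
  by_contra hcon
  push Not at hcon
  obtain ⟨e0, e1, e2, e3⟩ := eval_pderiv σ mu x
  rw [hcon] at e0 e1 e2 e3
  set t : ℂ := 16 * σ mu - 8 with ht
  have h := crit_sq (u0 := x 0 ^ 2) (u1 := x 1 ^ 2) (u2 := x 2 ^ 2) (u3 := x 3 ^ 2)
    (E := t * (x 0 * x 1 * x 2 * x 3)) (q := x 0 * x 1 * x 2 * x 3) (by ring)
    (by rw [ht]; linear_combination -(x 0) * e0) (by rw [ht]; linear_combination -(x 1) * e1)
    (by rw [ht]; linear_combination -(x 2) * e2) (by rw [ht]; linear_combination -(x 3) * e3)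
  have hp : x 0 * x 1 * x 2 * x 3 ≠ 0 :=
    mul_ne_zero (mul_ne_zero (mul_ne_zero (hx 0) (hx 1)) (hx 2)) (hx 3)
  have h2 : (t - 8) * (t + 8) * (x 0 * x 1 * x 2 * x 3) ^ 2 = 0 := by linear_combination h
  rcases mul_eq_zero.1 h2 with h3 | h3
  · rcases mul_eq_zero.1 h3 with h4 | h4
    · apply h1
      apply σ.injective
      rw [map_one]
      rw [ht] at h4
      linear_combination h4 / 16
    · apply h0
      apply σ.injective
      rw [map_zero]
      rw [ht] at h4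
      linear_combination h4 / 16
  · exact pow_ne_zero 2 hp h3

end Pool.Agent.K6.H95.DS
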